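import Pool.Agent.Helper26.LineArrBasic

open MvPolynomial

namespace Pool.Agent.Helper26.GeprociCI

open Pool.Agent.Helper26.LineArr

lemma eval_lin (a y : Fin 3 → ℂ) : eval y (lin a) = ∑ t, a t * y t := by simp [lin]

/-- The restriction to the line spanned by a vector. -/
noncomputable def psi (w : Fin 3 → ℂ) : S →ₐ[ℂ] Polynomial ℂ :=
  aeval fun t => Polynomial.C (w t) * Polynomial.X

lemma psi_X (w : Fin 3 → ℂ) (t : Fin 3) : psi w (X t) = Polynomial.C (w t) * Polynomial.X := by
  simp [psi]

lemma eval_psi (w : Fin 3 → ℂ) (c : ℂ) (h : S) :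
    (psi w h).eval c = eval (c • w) h := by
  induction h using MvPolynomial.induction_on with
  | C a =>
    have : psi w (C a) = Polynomial.C a := (psi w).commutes a
    rw [this]; simp
  | add p q hp hq => rw [map_add, map_add, Polynomial.eval_add, hp, hq]
  | mul_X p t hp =>
    rw [map_mul, map_mul, Polynomial.eval_mul, hp, psi_X, eval_X]
    congr 1
    rw [Polynomial.eval_mul, Polynomial.eval_C, Polynomial.eval_X, Pi.smul_apply, smul_eq_mul,
      mul_comm]

/-- Polynomials vanishing on the line spanned by `w` are combinations of linear forms vanishing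
at `w`. -/
lemma mem_span_of_vanish (w : Fin 3 → ℂ) (l : Fin 3) {h : S}
    (hh : ∀ c : ℂ, c ≠ 0 → eval (c • w) h = 0) :
    h ∈ Ideal.span (Set.range fun t => lin (Pi.single t 1 - (w t / w l) • Pi.single l 1)) := by
  set I : Ideal S :=
    Ideal.span (Set.range fun t => lin (Pi.single t 1 - (w t / w l) • Pi.single l 1)) with hI
  let lift : Polynomial ℂ →ₐ[ℂ] S := Polynomial.aeval (C (1 / w l) * X l)
  have hX : ∀ t, lift (psi w (X t)) = C (w t / w l) * X l := by
    intro t
    rw [psi_X, map_mul]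
    simp only [lift, Polynomial.aeval_C, Polynomial.aeval_X]
    rw [← mul_assoc]
    congr 1
    change C (w t) * C (1 / w l) = C (w t / w l)
    rw [← C_mul, mul_one_div]
  have key : ∀ p : S, p - lift (psi w p) ∈ I := by
    intro p
    induction p using MvPolynomial.induction_on with
    | C a =>
      have : lift (psi w (C a)) = C a := by
        have h1 : psi w (C a) = Polynomial.C a := (psi w).commutes a
        rw [h1]
        exact lift.commutes a
      rw [this, sub_self]; exact I.zero_mem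
    | add p q hp hq =>
      rw [map_add, map_add, add_sub_add_comm]
      exact I.add_mem hp hq
    | mul_X p t hp =>
      have : p * X t - lift (psi w (p * X t)) =
          X t * (p - lift (psi w p)) + lift (psi w p) * (X t - lift (psi w (X t))) := by
        rw [map_mul, map_mul]; ring
      rw [this]
      refine I.add_mem (I.mul_mem_left _ hp) (I.mul_mem_left _ ?_)
      rw [hX]
      apply Ideal.subset_span
      refine ⟨t, ?_⟩
      simp only
      rw [lin_sub, lin_smul, ← X_eq_lin, ← X_eq_lin]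
  have h0 : psi w h = 0 := by
    apply Polynomial.eq_zero_of_infinite_isRoot
    refine Set.Infinite.mono (s := {c : ℂ | c ≠ 0}) ?_ ?_
    · intro c hc
      change (psi w h).eval c = 0
      rw [eval_psi]
      exact hh c hc
    · exact (Set.finite_singleton (0 : ℂ)).infinite_compl
  have := key h
  rw [h0, map_zero, sub_zero] at this
  exact this

lemma cases3 : ∀ k t : Fin 3, t = k ∨ t = k + 1 ∨ t = k + 2 := by decide

/-- The coefficient vector of a linear form vanishing at `w` and not involving the variable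
`k`. -/
def bvec (k : Fin 3) (w : Fin 3 → ℂ) : Fin 3 → ℂ :=
  w (k + 2) • Pi.single (k + 1) 1 - w (k + 1) • Pi.single (k + 2) 1

lemma bvec_apply (k : Fin 3) (w : Fin 3 → ℂ) :
    bvec k w k = 0 ∧ bvec k w (k + 1) = w (k + 2) ∧ bvec k w (k + 2) = - w (k + 1) := by
  obtain ⟨h1, h2, h3⟩ := fin3_ne k
  unfold bvec
  refine ⟨?_, ?_, ?_⟩
  · simp [Pi.single_apply, h1.symm, h2.symm]
  · simp [Pi.single_apply, h3]
  · simp [Pi.single_apply, h3.symm]

lemma not_both_zero {a w : Fin 3 → ℂ} {k : Fin 3} (hk : a k ≠ 0) (hw : w ≠ 0)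
    (haw : ∑ t, a t * w t = 0) : w (k + 1) ≠ 0 ∨ w (k + 2) ≠ 0 := by
  by_contra hcon
  push Not at hcon
  obtain ⟨h1, h2⟩ := hcon
  rw [sum_fin3 k] at haw
  rw [h1, h2, mul_zero, mul_zero, add_zero, add_zero] at haw
  have h3 : w k = 0 := by
    rcases mul_eq_zero.mp haw with h | h
    · exact absurd h hk
    · exact h
  apply hw
  funext t
  rcases cases3 k t with rfl | rfl | rfl
  · exact h3
  · exact h1
  · exact h2

lemma bvec_ne_zero {a w : Fin 3 → ℂ} {k : Fin 3} (hk : a k ≠ 0) (hw : w ≠ 0)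
    (haw : ∑ t, a t * w t = 0) : bvec k w ≠ 0 := by
  obtain ⟨h1, h2, h3⟩ := bvec_apply k w
  rcases not_both_zero hk hw haw with h | h
  · intro h0
    rw [h0] at h3
    simp at h3
    exact h h3
  · intro h0
    rw [h0] at h2
    simp at h2
    exact h h2.symm

/-- A linear form vanishing at `w` becomes a multiple of `lin (bvec k w)`. -/
lemma bvec_dvd_rho_lin {a w : Fin 3 → ℂ} {k : Fin 3} (hk : a k ≠ 0) (hw : w ≠ 0)
    (haw : ∑ t, a t * w t = 0) {u : Fin 3 → ℂ} (hu : ∑ t, u t * w t = 0) :
    lin (bvec k w) ∣ rho a k (lin u) := by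
  rw [rho_lin]
  set x : Fin 3 → ℂ := u - (u k / a k) • a with hx
  have hxk : x k = 0 := by
    simp only [hx, Pi.sub_apply, Pi.smul_apply, smul_eq_mul]
    field_simp
    ring
  have hxw : ∑ t, x t * w t = 0 := by
    have : ∑ t, x t * w t = ∑ t, u t * w t - (u k / a k) * ∑ t, a t * w t := by
      rw [Finset.mul_sum, ← Finset.sum_sub_distrib]
      refine Finset.sum_congr rfl fun t _ => ?_
      simp only [hx, Pi.sub_apply, Pi.smul_apply, smul_eq_mul]
      ring
    rw [this, hu, haw, mul_zero, sub_zero]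
  rw [sum_fin3 k, hxk, zero_mul, zero_add] at hxw
  obtain ⟨b1, b2, b3⟩ := bvec_apply k w
  suffices h : ∃ c : ℂ, x = c • bvec k w by
    obtain ⟨c, hc⟩ := h
    rw [hc, lin_smul]
    exact Dvd.intro_left _ rfl
  rcases not_both_zero hk hw haw with h | h
  · refine ⟨-x (k + 2) / w (k + 1), ?_⟩
    funext t
    rcases cases3 k t with rfl | rfl | rfl
    · rw [Pi.smul_apply, b1, hxk, smul_zero]
    · rw [Pi.smul_apply, b2, smul_eq_mul]
      field_simp
      linear_combination hxw
    · rw [Pi.smul_apply, b3, smul_eq_mul]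
      field_simp
  · refine ⟨x (k + 1) / w (k + 2), ?_⟩
    funext t
    rcases cases3 k t with rfl | rfl | rfl
    · rw [Pi.smul_apply, b1, hxk, smul_zero]
    · rw [Pi.smul_apply, b2, smul_eq_mul]
      field_simp
    · rw [Pi.smul_apply, b3, smul_eq_mul]
      field_simp
      linear_combination hxw

lemma bvec_dvd_rho {a w : Fin 3 → ℂ} {k : Fin 3} (hk : a k ≠ 0) (hw : w ≠ 0)
    (haw : ∑ t, a t * w t = 0) {h : S} (hh : ∀ c : ℂ, c ≠ 0 → eval (c • w) h = 0) :
    lin (bvec k w) ∣ rho a k h := by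
  obtain ⟨l, hl⟩ := Function.ne_iff.mp hw
  have hl' : w l ≠ 0 := hl
  have h1 := mem_span_of_vanish w l hh
  have h2 : rho a k h ∈ Ideal.map (rho a k) (Ideal.span (Set.range fun t =>
      lin (Pi.single t 1 - (w t / w l) • Pi.single l 1))) := Ideal.mem_map_of_mem _ h1
  rw [← Ideal.mem_span_singleton]
  refine (?_ : Ideal.map (rho a k) _ ≤ _) h2
  rw [Ideal.map_span, Ideal.span_le]
  rintro _ ⟨_, ⟨t, rfl⟩, rfl⟩
  rw [SetLike.mem_coe, Ideal.mem_span_singleton]
  apply bvec_dvd_rho_lin hk hw haw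
  have : ∀ s, (Pi.single t 1 - (w t / w l) • Pi.single l 1 : Fin 3 → ℂ) s * w s =
      (if s = t then w s else 0) - (w t / w l) * (if s = l then w s else 0) := by
    intro s
    simp only [Pi.sub_apply, Pi.smul_apply, Pi.single_apply, smul_eq_mul]
    split_ifs <;> ring
  simp only [this, Finset.sum_sub_distrib, ← Finset.mul_sum, Finset.sum_ite_eq', Finset.mem_univ,
    if_true]
  field_simp
  ring

/-- One line: a polynomial vanishing at the points of the line is, modulo the equation of the
line, a multiple of `G`. -/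
lemma line_step {n : ℕ} {a : Fin 3 → ℂ} (ha : a ≠ 0) (w : Fin n → Fin 3 → ℂ) (G : S)
    (hw : ∀ j, w j ≠ 0) (haw : ∀ j, ∑ t, a t * w j t = 0)
    (hdis : ∀ j j', j ≠ j' → ∀ c : ℂ, w j ≠ c • w j')
    (hG : G.IsHomogeneous n) (hGw : ∀ j, ∀ c : ℂ, c ≠ 0 → eval (c • w j) G = 0) (hGa : ¬ lin a ∣ G)
    {h : S} (hh : ∀ j, ∀ c : ℂ, c ≠ 0 → eval (c • w j) h = 0) :
    ∃ r h' : S, h = r * G + lin a * h' := by
  obtain ⟨k, hk⟩ := Function.ne_iff.mp ha
  have hk' : a k ≠ 0 := hk
  have hb0 : ∀ j, bvec k (w j) ≠ 0 := fun j => bvec_ne_zero hk' (hw j) (haw j)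
  have hprime : ∀ j, Prime (lin (bvec k (w j))) := fun j => lin_prime (hb0 j)
  have hrel : Pairwise (Function.onFun IsRelPrime fun j => lin (bvec k (w j))) := by
    intro j j' hjj
    change IsRelPrime (lin (bvec k (w j))) (lin (bvec k (w j')))
    rw [(hprime j).irreducible.isRelPrime_iff_not_dvd]
    intro hd
    obtain ⟨c, hc⟩ := lin_dvd_lin hd
    -- `w j'` is a multiple of `w j`
    obtain ⟨p1, p2, p3⟩ := bvec_apply k (w j)
    obtain ⟨q1, q2, q3⟩ := bvec_apply k (w j')
    have e2 : w j' (k + 2) = c * w j (k + 2) := by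
      have := congrFun hc (k + 1)
      rw [Pi.smul_apply, q2, p2, smul_eq_mul] at this
      exact this
    have e1 : w j' (k + 1) = c * w j (k + 1) := by
      have := congrFun hc (k + 2)
      rw [Pi.smul_apply, q3, p3, smul_eq_mul] at this
      linear_combination -this
    have e0 : w j' k = c * w j k := by
      have h1 := haw j
      have h2 := haw j'
      rw [sum_fin3 k] at h1 h2
      rw [e1, e2] at h2
      apply mul_left_cancel₀ hk'
      linear_combination h2 - c * h1
    apply hdis j' j hjj.symm c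
    funext t
    rcases cases3 k t with rfl | rfl | rfl
    · exact e0
    · exact e1
    · exact e2
  have hdvd : ∀ g : S, (∀ j, ∀ c : ℂ, c ≠ 0 → eval (c • w j) g = 0) →
      ∏ j, lin (bvec k (w j)) ∣ rho a k g := by
    intro g hg
    exact Fintype.prod_dvd_of_isRelPrime hrel fun j => bvec_dvd_rho hk' (hw j) (haw j) (hg j)
  obtain ⟨q, hq⟩ := hdvd G hGw
  obtain ⟨p, hp⟩ := hdvd h hh
  have hρG : rho a k G ≠ 0 := by
    rw [Ne, rho_eq_zero_iff hk']
    exact hGa
  have hq0 : q ≠ 0 := by
    rintro rfl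
    rw [mul_zero] at hq
    exact hρG hq
  have hprod0 : ∏ j, lin (bvec k (w j)) ≠ 0 :=
    Finset.prod_ne_zero_iff.mpr fun j _ => (hprime j).ne_zero
  have hprod : (∏ j, lin (bvec k (w j))).totalDegree = n := by
    have h1 := IsHomogeneous.prod Finset.univ (fun j => lin (bvec k (w j))) (fun _ => 1)
      (fun i _ => lin_isHomogeneous _)
    have h2 := h1.totalDegree hprod0
    simpa using h2
  have hdeg : q.totalDegree = 0 := by
    have h1 := totalDegree_mul_of_isDomain hprod0 hq0
    rw [← hq, hprod] at h1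
    have h2 := rho_totalDegree_le a k G
    have h3 := hG.totalDegree_le
    omega
  rw [totalDegree_eq_zero_iff_eq_C] at hdeg
  set κ := coeff 0 q with hκ
  have hκ0 : κ ≠ 0 := by
    intro h0
    apply hq0
    rw [hdeg, h0, C_0]
  have hr : rho a k h = rho a k G * (C κ⁻¹ * p) := by
    rw [hq, hp, hdeg]
    have : (C κ * C κ⁻¹ : S) = 1 := by rw [← C_mul, mul_inv_cancel₀ hκ0, C_1]
    linear_combination (-(∏ j, lin (bvec k (w j))) * p) * this
  have hz : rho a k (h - (C κ⁻¹ * p) * G) = 0 := by
    have h2 := rho_rho hk' h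
    rw [hr, map_mul, rho_rho hk', ← hr] at h2
    rw [map_sub, map_mul, ← h2]
    ring
  rw [rho_eq_zero_iff hk'] at hz
  obtain ⟨h', hh'⟩ := hz
  exact ⟨C κ⁻¹ * p, h', by linear_combination hh'⟩

/-- The data of `m` lines in the plane, `n` points on each of them (away from the other lines),
and a form `G` of degree `n` vanishing at all the points and on none of the lines. -/
structure Data {m n : ℕ} (a : Fin m → Fin 3 → ℂ) (w : Fin m → Fin n → Fin 3 → ℂ) (G : S) :
    Prop where
  ha : ∀ i, a i ≠ 0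
  hw : ∀ i j, w i j ≠ 0
  haw : ∀ i j, ∑ t, a i t * w i j t = 0
  hoff : ∀ i k j, i ≠ k → ∑ t, a k t * w i j t ≠ 0
  hdis : ∀ i j j', j ≠ j' → ∀ c : ℂ, w i j ≠ c • w i j'
  hG : G.IsHomogeneous n
  hGw : ∀ i j, ∀ c : ℂ, c ≠ 0 → eval (c • w i j) G = 0
  hGa : ∀ i, ¬ lin (a i) ∣ G

lemma mem_span_of_data {m n : ℕ} {a : Fin m → Fin 3 → ℂ} {w : Fin m → Fin n → Fin 3 → ℂ} {G : S}
    (H : Data a w G) (s : Finset (Fin m)) :
    ∀ h : S, (∀ i ∈ s, ∀ j, ∀ c : ℂ, c ≠ 0 → eval (c • w i j) h = 0) →
      h ∈ Ideal.span {∏ i ∈ s, lin (a i), G} := by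
  classical
  induction s using Finset.induction_on with
  | empty =>
    intro h _
    rw [Finset.prod_empty, Ideal.mem_span_pair]
    exact ⟨h, 0, by ring⟩
  | insert i s hi ih =>
    intro h hh
    obtain ⟨r, h', hr⟩ := line_step (H.ha i) (w i) G (H.hw i) (H.haw i) (H.hdis i) H.hG (H.hGw i)
      (H.hGa i) (h := h) (fun j c hc => hh i (Finset.mem_insert_self i s) j c hc)
    have h2 : h' ∈ Ideal.span {∏ i ∈ s, lin (a i), G} := by
      apply ih
      intro k hk j c hc
      have h3 := hh k (Finset.mem_insert_of_mem hk) j c hc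
      rw [hr, map_add, map_mul, map_mul, H.hGw k j c hc, mul_zero, zero_add, eval_lin] at h3
      rcases mul_eq_zero.mp h3 with h4 | h4
      · exfalso
        have h5 : k ≠ i := by
          rintro rfl
          exact hi hk
        apply H.hoff k i j h5
        have : ∑ t, a i t * (c • w k j) t = c * ∑ t, a i t * w k j t := by
          rw [Finset.mul_sum]
          refine Finset.sum_congr rfl fun t _ => ?_
          rw [Pi.smul_apply, smul_eq_mul]
          ring
        rw [this] at h4
        rcases mul_eq_zero.mp h4 with h6 | h6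
        · exact absurd h6 hc
        · exact h6
      · exact h4
    rw [Ideal.mem_span_pair] at h2 ⊢
    obtain ⟨α, β, hαβ⟩ := h2
    refine ⟨α, r + β * lin (a i), ?_⟩
    rw [Finset.prod_insert hi, hr, ← hαβ]
    ring

lemma isRegular_of_data {m n : ℕ} {a : Fin m → Fin 3 → ℂ} {w : Fin m → Fin n → Fin 3 → ℂ} {G : S}
    (H : Data a w G) (i0 : Fin m) (j0 : Fin n) :
    RingTheory.Sequence.IsRegular S [∏ i, lin (a i), G] := by
  set F := ∏ i, lin (a i) with hF
  have hF0 : F ≠ 0 := Finset.prod_ne_zero_iff.mpr fun i _ => lin_ne_zero (H.ha i)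
  have hrel : IsRelPrime F G := by
    apply IsRelPrime.prod_left
    intro i _
    rw [(lin_irreducible (H.ha i)).isRelPrime_iff_not_dvd]
    exact H.hGa i
  have hv : ∀ p ∈ Ideal.span {F, G}, eval (w i0 j0) p = 0 := by
    intro p hp
    rw [Ideal.mem_span_pair] at hp
    obtain ⟨α, β, rfl⟩ := hp
    have h1 : eval (w i0 j0) F = 0 := by
      rw [hF, map_prod]
      apply Finset.prod_eq_zero (Finset.mem_univ i0)
      rw [eval_lin]
      exact H.haw i0 j0
    have h2 := H.hGw i0 j0 1 one_ne_zero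
    rw [one_smul] at h2
    rw [map_add, map_mul, map_mul, h1, h2]
    ring
  rw [RingTheory.Sequence.isRegular_iff]
  constructor
  · rw [RingTheory.Sequence.isWeaklyRegular_cons_iff,
      RingTheory.Sequence.isWeaklyRegular_singleton_iff]
    constructor
    · rw [isSMulRegular_iff_right_eq_zero_of_smul]
      intro x hx
      rcases mul_eq_zero.mp hx with h | h
      · exact absurd h hF0
      · exact h
    · rw [isSMulRegular_quotient_iff_mem_of_smul_mem]
      intro x hx
      rw [Submodule.mem_smul_pointwise_iff_exists] at hx ⊢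
      obtain ⟨y, -, hy⟩ := hx
      have h1 : F ∣ G * x := ⟨y, hy.symm⟩
      obtain ⟨z, hz⟩ := hrel.dvd_of_dvd_mul_left h1
      exact ⟨z, trivial, hz.symm⟩
  · intro h
    have h1 : (1 : S) ∈ (Ideal.ofList [F, G] • ⊤ : Submodule S S) := by
      rw [← h]; trivial
    have h2 : (1 : S) ∈ Ideal.span {F, G} := by
      rw [Ideal.ofList_cons, Ideal.ofList_singleton, smul_eq_mul, Ideal.mul_top] at h1
      rw [Ideal.span_insert]
      exact h1
    have h3 := hv 1 h2
    rw [map_one] at h3
    exact one_ne_zero h3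

end Pool.Agent.Helper26.GeprociCI
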