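import Mathlib

/-!
Explicit points on four skew lines, Plücker coordinates and the cubic complexes used for the
geproci example.
-/

namespace Pool.Agent.Helper26.GeprociPts

def ee : Fin 4 → Fin 4 → ℤ := ![![1,0,0,0],![0,1,0,0],![0,0,1,0],![0,0,0,1]]
def ff : Fin 4 → Fin 4 → ℤ := ![![0,1,1,1],![-1,0,-1,1],![-1,1,0,-1],![-1,-1,1,0]]

section
variable {R : Type*} [CommRing R]

def al (t : R) : Fin 6 → R := ![1, 1, 1, 1, 1 - 3 * t, 1 + 3 * t]
def be (t : R) : Fin 6 → R := ![0, 1, -1, t, 1 + t, t - 1]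

/-- The point with parameters `(α, β)` on the `i`-th line. -/
def lpt (i : Fin 4) (α β : R) : Fin 4 → R := fun k => α * (ee i k : R) + β * (ff i k : R)

/-- The `j`-th point on the `i`-th line. -/
def pt (t : R) (i : Fin 4) (j : Fin 6) : Fin 4 → R := lpt i (al t j) (be t j)

def aa (P x : Fin 4 → R) : Fin 3 → R :=
  ![P 0 * x 1 - x 0 * P 1, P 0 * x 2 - x 0 * P 2, P 0 * x 3 - x 0 * P 3]
def bb (P x : Fin 4 → R) : Fin 3 → R :=
  ![P 2 * x 3 - P 3 * x 2, P 3 * x 1 - P 1 * x 3, P 1 * x 2 - P 2 * x 1]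

/-- The four linear line complexes of lines meeting the four given lines. -/
def ell' (a b : Fin 3 → R) : Fin 4 → R :=
  ![b 0 + b 1 + b 2, a 1 + a 2 - b 0, a 0 + a 2 - b 1, a 0 + a 1 - b 2]
def ell (P x : Fin 4 → R) : Fin 4 → R := ell' (aa P x) (bb P x)

/-- The first cubic complex. -/
def Phi' (a b : Fin 3 → R) : R :=
  (a 0 - b 0) * (a 1 - b 1) * (a 2 - b 2) - (a 0 + b 0) * (a 1 + b 1) * (a 2 + b 2)
def Phi (P x : Fin 4 → R) : R := Phi' (aa P x) (bb P x)

/-- The second cubic complex. -/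
def Psi' (t : R) (a b : Fin 3 → R) : R :=
  ((1 - 3 * t * t) * (a 0 - b 0) + 2 * t * t * (a 0 - b 0 + (a 1 - b 1) + (a 2 - b 2)) +
      2 * t * ((a 2 - b 2) - (a 1 - b 1))) *
    ((1 - 3 * t * t) * (a 1 - b 1) + 2 * t * t * (a 0 - b 0 + (a 1 - b 1) + (a 2 - b 2)) +
      2 * t * ((a 0 - b 0) - (a 2 - b 2))) *
    ((1 - 3 * t * t) * (a 2 - b 2) + 2 * t * t * (a 0 - b 0 + (a 1 - b 1) + (a 2 - b 2)) +
      2 * t * ((a 1 - b 1) - (a 0 - b 0))) -
    (1 + 3 * t * t) ^ 3 * ((a 0 + b 0) * (a 1 + b 1) * (a 2 + b 2))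
def Psi (t : R) (P x : Fin 4 → R) : R := Psi' t (aa P x) (bb P x)

lemma aa_smul_add (P x : Fin 4 → R) (c κ : R) : aa P (c • x + κ • P) = c • aa P x := by
  funext i
  fin_cases i <;> simp [aa] <;> ring

lemma bb_smul_add (P x : Fin 4 → R) (c κ : R) : bb P (c • x + κ • P) = c • bb P x := by
  funext i
  fin_cases i <;> simp [bb] <;> ring

lemma ell'_smul (a b : Fin 3 → R) (c : R) : ell' (c • a) (c • b) = c • ell' a b := by
  funext i
  fin_cases i <;> simp [ell'] <;> ring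

lemma Phi'_smul (a b : Fin 3 → R) (c : R) : Phi' (c • a) (c • b) = c ^ 3 * Phi' a b := by
  simp [Phi']; ring

lemma Psi'_smul (t : R) (a b : Fin 3 → R) (c : R) :
    Psi' t (c • a) (c • b) = c ^ 3 * Psi' t a b := by
  simp [Psi']; ring

lemma ell_smul_add (P x : Fin 4 → R) (c κ : R) : ell P (c • x + κ • P) = c • ell P x := by
  unfold ell; rw [aa_smul_add, bb_smul_add, ell'_smul]

lemma Phi_smul_add (P x : Fin 4 → R) (c κ : R) : Phi P (c • x + κ • P) = c ^ 3 * Phi P x := by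
  unfold Phi; rw [aa_smul_add, bb_smul_add, Phi'_smul]

lemma Psi_smul_add (t : R) (P x : Fin 4 → R) (c κ : R) :
    Psi t P (c • x + κ • P) = c ^ 3 * Psi t P x := by
  unfold Psi; rw [aa_smul_add, bb_smul_add, Psi'_smul]

lemma ell_lpt_self (P : Fin 4 → R) (i : Fin 4) (α β : R) : ell P (lpt i α β) i = 0 := by
  fin_cases i <;> simp [ell, ell', aa, bb, lpt, ee, ff] <;> ring

lemma ell_lpt_left (x : Fin 4 → R) (i : Fin 4) (α β : R) : ell (lpt i α β) x i = 0 := by
  fin_cases i <;> simp [ell, ell', aa, bb, lpt, ee, ff] <;> ring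

lemma Phi_pt (P : Fin 4 → R) (t : R) (i : Fin 4) (j : Fin 6) (hj : j = 0 ∨ j = 1 ∨ j = 2) :
    Phi P (pt t i j) = 0 := by
  rcases hj with rfl | rfl | rfl <;> fin_cases i <;>
    simp [Phi, Phi', aa, bb, pt, lpt, ee, ff, al, be] <;> ring

lemma Psi_pt (P : Fin 4 → R) (t : R) (i : Fin 4) (j : Fin 6) (hj : j = 3 ∨ j = 4 ∨ j = 5) :
    Psi t P (pt t i j) = 0 := by
  rcases hj with rfl | rfl | rfl <;> fin_cases i <;>
    simp [Psi, Psi', aa, bb, pt, lpt, ee, ff, al, be] <;> ring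

lemma PhiPsi_pt (P : Fin 4 → R) (t : R) (i : Fin 4) (j : Fin 6) :
    Phi P (pt t i j) * Psi t P (pt t i j) = 0 := by
  have : (j = 0 ∨ j = 1 ∨ j = 2) ∨ (j = 3 ∨ j = 4 ∨ j = 5) := by
    revert j; decide
  rcases this with h | h
  · rw [Phi_pt P t i j h, zero_mul]
  · rw [Psi_pt P t i j h, mul_zero]

/-- Witness points. -/
def U : Fin 4 → Fin 4 → Fin 4 → ℤ :=
  ![![![0, 0, 0, 0], ![0, 0, -1, -1], ![0, -1, 0, -1], ![0, -1, -1, 0]],
    ![![0, 0, -1, 1], ![0, 0, 0, 0], ![1, 0, 0, -1], ![1, 0, 1, 0]],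
    ![![0, 1, 0, -1], ![1, 0, 0, 1], ![0, 0, 0, 0], ![1, -1, 0, 0]],
    ![![0, -1, 1, 0], ![1, 0, -1, 0], ![1, 1, 0, 0], ![0, 0, 0, 0]]]

lemma ell_U (i k : Fin 4) (h : i ≠ k) (α β : R) :
    ell (fun s => (U i k s : R)) (lpt i α β) k = 2 * α := by
  fin_cases i <;> fin_cases k <;> first
    | exact absurd rfl h
    | (simp [ell, ell', aa, bb, lpt, ee, ff, U]; try ring)

def U1 : Fin 4 → Fin 4 → ℤ := ![![0, 0, 1, -1], ![0, 0, 1, 1], ![0, 1, 0, 1], ![0, 1, 1, 0]]
def U2 : Fin 4 → Fin 4 → ℤ := ![![0, 0, 0, 1], ![0, 0, 0, 1], ![0, 0, 0, -1], ![0, 0, 1, 0]]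

lemma Phi_U1 (i : Fin 4) : Phi (fun s => (U1 i s : R)) (lpt i 0 1) = -4 := by
  fin_cases i <;> simp [Phi, Phi', aa, bb, lpt, ee, ff, U1] <;> ring

lemma Psi_U2 (t : R) (i : Fin 4) : Psi t (fun s => (U2 i s : R)) (lpt i 0 1) =
    4 * t * (t ^ 2 - 1) * (9 * t ^ 2 - 1) := by
  fin_cases i <;> simp [Psi, Psi', aa, bb, lpt, ee, ff, U2] <;> ring

/-- The determinant of two parameter pairs. -/
def cross (t : R) (j j' : Fin 6) : R := al t j * be t j' - al t j' * be t j

lemma map_al {R' : Type*} [CommRing R'] (φ : R →+* R') (t : R) (j : Fin 6) :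
    φ (al t j) = al (φ t) j := by
  fin_cases j <;> simp [al, map_ofNat]

lemma map_be {R' : Type*} [CommRing R'] (φ : R →+* R') (t : R) (j : Fin 6) :
    φ (be t j) = be (φ t) j := by
  fin_cases j <;> simp [be]

lemma map_pt {R' : Type*} [CommRing R'] (φ : R →+* R') (t : R) (i : Fin 4) (j : Fin 6)
    (k : Fin 4) : φ (pt t i j k) = pt (φ t) i j k := by
  simp [pt, lpt, map_al, map_be]

end

/-- The parameters for which the construction works. -/
structure Good (t : ℂ) : Prop where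
  h0 : t ≠ 0
  h1 : t - 1 ≠ 0
  h2 : t + 1 ≠ 0
  h3 : 1 + 3 * t ^ 2 ≠ 0
  h4 : 1 - 3 * t ≠ 0
  h5 : 1 + 3 * t ≠ 0

lemma al_ne_zero {t : ℂ} (ht : Good t) (j : Fin 6) : al t j ≠ 0 := by
  have h4 := ht.h4
  have h5 := ht.h5
  fin_cases j <;> simp [al, h4, h5]

lemma cross_ne_zero {t : ℂ} (ht : Good t) {j j' : Fin 6} (h : j ≠ j') :
    al t j * be t j' - al t j' * be t j ≠ 0 := by
  have h0 := ht.h0
  have h1 := ht.h1
  have h2 := ht.h2
  have h3 := ht.h3
  have key : ∀ j j' : Fin 6, j < j' → al t j * be t j' - al t j' * be t j ≠ 0 := by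
    intro j j' hj


    fin_cases j <;> fin_cases j' <;> first
      | exact absurd hj (by decide)
      | skip
    all_goals simp only [al, be, Fin.zero_eta, Fin.mk_one, Fin.reduceFinMk, Matrix.cons_val]
    · norm_num
    · norm_num
    · intro h; exact h0 (by linear_combination h)
    · intro h; exact h2 (by linear_combination h)
    · intro h; exact h1 (by linear_combination h)
    · norm_num
    · intro h; exact h1 (by linear_combination h)
    · intro h; exact h0 (by linear_combination h / 4)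
    · intro h; exact h2 (by linear_combination -h / 2)
    · intro h; exact h2 (by linear_combination h)
    · intro h; exact h1 (by linear_combination -h / 2)
    · intro h; exact h0 (by linear_combination h / 4)
    · intro h; exact h3 (by linear_combination h)
    · intro h; exact h3 (by linear_combination -h)
    · intro h; exact h3 (by linear_combination -h / 2)
  rcases lt_or_gt_of_ne h with h | h
  · exact key j j' h
  · intro h'
    exact key j' j h (by linear_combination -h')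

/-- Coordinates on the lines. -/
lemma lpt_eq {i : Fin 4} {α β α' β' c : ℂ} (h : lpt i α β = c • lpt i α' β') :
    α = c * α' ∧ β = c * β' := by
  have e0 := congrFun h 0
  have e1 := congrFun h 1
  have e2 := congrFun h 2
  have e3 := congrFun h 3
  fin_cases i <;> simp [lpt, ee, ff] at e0 e1 e2 e3
  · exact ⟨e0, e1⟩
  · exact ⟨e1, e3⟩
  · exact ⟨e2, e1⟩
  · exact ⟨e3, e2⟩

lemma pt_ne_zero (t : ℂ) (i : Fin 4) (j : Fin 6) : pt t i j ≠ 0 := by
  intro h
  have h1 : lpt i (al t j) (be t j) = (0 : ℂ) • lpt i 0 0 := by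
    rw [zero_smul]; exact h
  obtain ⟨h2, h3⟩ := lpt_eq h1
  rw [zero_mul] at h2 h3
  fin_cases j <;> simp [al, be] at h2 h3
  · have : (4 : ℂ) = 0 := by linear_combination h2 + 3 * h3
    norm_num at this
  · have : (4 : ℂ) = 0 := by linear_combination h2 - 3 * h3
    norm_num at this

lemma ne_of_line_ne {t : ℂ} (ht : Good t) {i k : Fin 4} (h : i ≠ k) (j j' : Fin 6) (c : ℂ) :
    pt t i j ≠ c • pt t k j' := by
  intro h1
  have h2 := ell_U (R := ℂ) i k h (al t j) (be t j)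
  have h3 : ell (fun s => (U i k s : ℂ)) (pt t i j) k = 0 := by
    rw [h1]
    have := ell_smul_add (fun s => (U i k s : ℂ)) (pt t k j') c 0
    rw [zero_smul, add_zero] at this
    rw [this, Pi.smul_apply, pt, ell_lpt_self, smul_zero]
  unfold pt at h3
  rw [h3] at h2
  exact al_ne_zero ht j (by linear_combination -h2 / 2)

lemma ne_of_pt_ne {t : ℂ} (ht : Good t) {i : Fin 4} {j j' : Fin 6} (h : j ≠ j') (c : ℂ) :
    pt t i j ≠ c • pt t i j' := by
  intro h1
  obtain ⟨h2, h3⟩ := lpt_eq h1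
  apply cross_ne_zero ht h
  rw [h2, h3]
  ring

lemma pt_inj {t : ℂ} (ht : Good t) {i k : Fin 4} {j j' : Fin 6} {c : ℂ}
    (h : pt t i j = c • pt t k j') : i = k ∧ j = j' := by
  by_cases hik : i = k
  · subst hik
    refine ⟨rfl, ?_⟩
    by_contra hj
    exact ne_of_pt_ne ht hj c h
  · exact absurd h (ne_of_line_ne ht hik j j' c)

end Pool.Agent.Helper26.GeprociPts
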