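import Pool.Agent.Helper26.LineArrDefs

open MvPolynomial

namespace Pool.Agent.Helper26.LineArr

lemma lin_isHomogeneous (a : Fin 3 → ℂ) : (lin a).IsHomogeneous 1 := by
  unfold lin
  exact IsHomogeneous.sum _ _ _ fun t _ => isHomogeneous_C_mul_X _ _

lemma coeff_lin (a : Fin 3 → ℂ) (t : Fin 3) :
    coeff (Finsupp.single t 1) (lin a) = a t := by
  classical
  unfold lin
  rw [coeff_sum]
  simp only [coeff_C_mul, coeff_X]
  rw [Finset.sum_eq_single t]
  · simp
  · intro b _ hb
    rw [if_neg]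
    · simp
    · intro h
      exact hb (Finsupp.single_left_injective one_ne_zero h)
  · simp

lemma lin_inj {a b : Fin 3 → ℂ} (h : lin a = lin b) : a = b := by
  funext t
  rw [← coeff_lin a t, ← coeff_lin b t, h]

lemma lin_zero : lin 0 = 0 := by simp [lin]

lemma lin_ne_zero {a : Fin 3 → ℂ} (h : a ≠ 0) : lin a ≠ 0 := by
  intro h0
  exact h (lin_inj (h0.trans lin_zero.symm))

lemma lin_totalDegree {a : Fin 3 → ℂ} (h : a ≠ 0) : (lin a).totalDegree = 1 :=
  (lin_isHomogeneous a).totalDegree (lin_ne_zero h)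

lemma lin_add (a b : Fin 3 → ℂ) : lin (a + b) = lin a + lin b := by
  simp [lin, add_mul, Finset.sum_add_distrib]

lemma lin_smul (c : ℂ) (a : Fin 3 → ℂ) : lin (c • a) = C c * lin a := by
  simp [lin, Finset.mul_sum, mul_assoc]

lemma lin_sub (a b : Fin 3 → ℂ) : lin (a - b) = lin a - lin b := by
  simp [lin, sub_mul, Finset.sum_sub_distrib]

lemma lin_irreducible {a : Fin 3 → ℂ} (h : a ≠ 0) : Irreducible (lin a) := by
  apply irreducible_of_totalDegree_eq_one (lin_totalDegree h)
  intro x hx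
  obtain ⟨t, ht⟩ := Function.ne_iff.mp h
  have := hx (Finsupp.single t 1)
  rw [coeff_lin] at this
  exact isUnit_of_dvd_unit this (isUnit_iff_ne_zero.mpr ht)

lemma lin_prime {a : Fin 3 → ℂ} (h : a ≠ 0) : Prime (lin a) := (lin_irreducible h).prime

lemma lin_dvd_lin {a b : Fin 3 → ℂ} (h : lin a ∣ lin b) : ∃ c : ℂ, b = c • a := by
  by_cases hb : b = 0
  · exact ⟨0, by simp [hb]⟩
  obtain ⟨q, hq⟩ := h
  have hb' := lin_ne_zero hb
  have ha : lin a ≠ 0 := by rintro h0; rw [h0, zero_mul] at hq; exact hb' hq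
  have hq0 : q ≠ 0 := by rintro rfl; rw [mul_zero] at hq; exact hb' hq
  have ha' : a ≠ 0 := by rintro rfl; exact ha lin_zero
  have hd := totalDegree_mul_of_isDomain ha hq0
  rw [← hq, lin_totalDegree hb, lin_totalDegree ha'] at hd
  have : q.totalDegree = 0 := by omega
  rw [totalDegree_eq_zero_iff_eq_C] at this
  refine ⟨q.coeff 0, lin_inj ?_⟩
  rw [lin_smul, hq, mul_comm]
  congr 1

lemma X_eq_lin (t : Fin 3) : (X t : S) = lin (Pi.single t 1) := by
  unfold lin
  rw [Finset.sum_eq_single t]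
  · simp
  · intro b _ hb
    simp [hb]
  · simp

/-- The pairing of a coefficient vector with a vector of polynomials. -/
noncomputable def pair (a : Fin 3 → ℂ) (θ : Fin 3 → S) : S := ∑ t, C (a t) * θ t

lemma pair_X (a : Fin 3 → ℂ) : pair a X = lin a := rfl

lemma pair_add (a : Fin 3 → ℂ) (θ η : Fin 3 → S) : pair a (θ + η) = pair a θ + pair a η := by
  simp [pair, mul_add, Finset.sum_add_distrib]

lemma pair_smul (a : Fin 3 → ℂ) (c : S) (θ : Fin 3 → S) : pair a (c • θ) = c * pair a θ := by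
  simp only [pair, Pi.smul_apply, smul_eq_mul, Finset.mul_sum]
  exact Finset.sum_congr rfl fun t _ => by ring

lemma pair_sub (a : Fin 3 → ℂ) (θ η : Fin 3 → S) : pair a (θ - η) = pair a θ - pair a η := by
  simp [pair, mul_sub, Finset.sum_sub_distrib]

/-- The derivation with components `θ`. -/
noncomputable def der (θ : Fin 3 → S) : Derivation ℂ S S := ∑ t, θ t • pderiv t

lemma der_apply (θ : Fin 3 → S) (f : S) : der θ f = ∑ t, θ t * pderiv t f := by
  simp [der, Fin.sum_univ_three]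

lemma pderiv_lin (t : Fin 3) (a : Fin 3 → ℂ) : pderiv t (lin a) = C (a t) := by
  unfold lin
  rw [map_sum, Finset.sum_eq_single t]
  · simp
  · intro b _ hb
    rw [pderiv_C_mul, pderiv_X_of_ne hb, mul_zero]
  · simp

lemma der_lin (θ : Fin 3 → S) (a : Fin 3 → ℂ) : der θ (lin a) = pair a θ := by
  rw [der_apply]
  unfold pair
  exact Finset.sum_congr rfl fun t _ => by rw [pderiv_lin, mul_comm]

lemma mem_AR {f : S} {θ : Fin 3 → S} : θ ∈ AR f ↔ der θ f = 0 := by
  rw [der_apply]; rfl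

lemma der_prod_of_eq {ι : Type*} (D : Derivation ℂ S S) (s : Finset ι) (g q : ι → S)
    (h : ∀ i ∈ s, D (g i) = q i * g i) : D (∏ i ∈ s, g i) = (∑ i ∈ s, q i) * ∏ i ∈ s, g i := by
  classical
  induction s using Finset.induction_on with
  | empty => simp
  | insert a s ha ih =>
    rw [Finset.prod_insert ha, Finset.sum_insert ha, D.leibniz,
      ih (fun i hi => h i (Finset.mem_insert_of_mem hi)), h a (Finset.mem_insert_self _ _)]
    simp only [smul_eq_mul]
    ring

lemma dvd_der_of_dvd_der_prod {ι : Type*} [DecidableEq ι] (D : Derivation ℂ S S) (s : Finset ι)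
    (g : ι → S) (hp : ∀ i ∈ s, Prime (g i))
    (hn : ∀ i ∈ s, ∀ j ∈ s, i ≠ j → ¬ g i ∣ g j)
    (h : ∏ j ∈ s, g j ∣ D (∏ j ∈ s, g j)) (i : ι) (hi : i ∈ s) : g i ∣ D (g i) := by
  have h1 : g i ∣ D (∏ j ∈ s, g j) := (Finset.dvd_prod_of_mem g hi).trans h
  rw [← Finset.mul_prod_erase s g hi, D.leibniz, smul_eq_mul, smul_eq_mul] at h1
  have h2 : g i ∣ (∏ x ∈ s.erase i, g x) * D (g i) :=
    (dvd_add_right (Dvd.intro _ rfl)).mp h1
  rcases (hp i hi).dvd_or_dvd h2 with h3 | h3
  · exfalso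
    rw [(hp i hi).dvd_finsetProd_iff] at h3
    obtain ⟨j, hj, hj'⟩ := h3
    rw [Finset.mem_erase] at hj
    exact hn i hi j hj.2 hj.1.symm hj'
  · exact h3

/-- Logarithmic derivations of degree at most `r`, not multiples of the Euler derivation. -/
def P {d : ℕ} (v : Fin d → Fin 3 → ℂ) (r : ℕ) : Prop :=
  ∃ θ : Fin 3 → S, (∀ t, (θ t).totalDegree ≤ r) ∧ (∀ i, lin (v i) ∣ pair (v i) θ) ∧
    ¬ ∃ a : S, θ = a • X

lemma P_mono {d : ℕ} {v : Fin d → Fin 3 → ℂ} {r s : ℕ} (h : P v r) (hrs : r ≤ s) : P v s := by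
  obtain ⟨θ, h1, h2, h3⟩ := h
  exact ⟨θ, fun t => (h1 t).trans hrs, h2, h3⟩

lemma P_castSucc {d : ℕ} {v : Fin (d + 1) → Fin 3 → ℂ} {r : ℕ} (h : P v r) :
    P (fun i : Fin d => v i.castSucc) r := by
  obtain ⟨θ, h1, h2, h3⟩ := h
  exact ⟨θ, h1, fun i => h2 _, h3⟩

lemma IsArrangement.castSucc {d : ℕ} {v : Fin (d + 1) → Fin 3 → ℂ} (h : IsArrangement v) :
    IsArrangement (fun i : Fin d => v i.castSucc) :=
  ⟨fun i => h.1 _, fun i j hij c => h.2 _ _ (fun h' => hij (Fin.castSucc_injective _ h')) c⟩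

lemma IsArrangement.not_dvd {d : ℕ} {v : Fin d → Fin 3 → ℂ} (h : IsArrangement v) {i j : Fin d}
    (hij : i ≠ j) : ¬ lin (v i) ∣ lin (v j) := by
  intro hd
  obtain ⟨c, hc⟩ := lin_dvd_lin hd
  exact h.2 j i hij.symm c hc

lemma exists_not_dvd_X (a : Fin 3 → ℂ) : ∃ t, ¬ lin a ∣ (X t : S) := by
  by_contra hcon
  push Not at hcon
  obtain ⟨c0, hc0⟩ := lin_dvd_lin (X_eq_lin 0 ▸ hcon 0)
  obtain ⟨c1, hc1⟩ := lin_dvd_lin (X_eq_lin 1 ▸ hcon 1)
  have e00 := congrFun hc0 0
  have e01 := congrFun hc0 1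
  have e10 := congrFun hc1 0
  have e11 := congrFun hc1 1
  simp at e00 e01 e10 e11
  rcases e01 with e01 | e01
  · rw [e01] at e00; simp at e00
  · rw [e01] at e11; simp at e11

lemma P_succ_of_P_castSucc {d : ℕ} {v : Fin (d + 1) → Fin 3 → ℂ} (hv : IsArrangement v) {r : ℕ}
    (h : P (fun i : Fin d => v i.castSucc) r) : P v (r + 1) := by
  obtain ⟨θ, h1, h2, h3⟩ := h
  refine ⟨lin (v (Fin.last d)) • θ, ?_, ?_, ?_⟩
  · intro t
    simp only [Pi.smul_apply, smul_eq_mul]
    refine (totalDegree_mul _ _).trans ?_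
    rw [lin_totalDegree (hv.1 _), add_comm]
    exact Nat.add_le_add_right (h1 t) 1
  · intro i
    rw [pair_smul]
    refine Fin.lastCases ?_ ?_ i
    · exact Dvd.intro _ rfl
    · intro j
      exact Dvd.dvd.mul_left (h2 j) _
  · rintro ⟨a, ha⟩
    apply h3
    have hp := lin_prime (hv.1 (Fin.last d))
    have := exists_not_dvd_X (v (Fin.last d))
    obtain ⟨t, ht⟩ := this
    have hdvd : lin (v (Fin.last d)) ∣ a * X t := by
      have := congrFun ha t
      simp only [Pi.smul_apply, smul_eq_mul] at this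
      rw [← this]; exact Dvd.intro _ rfl
    rcases hp.dvd_or_dvd hdvd with hda | hdX
    · obtain ⟨b, hb⟩ := hda
      refine ⟨b, ?_⟩
      funext s
      have := congrFun ha s
      simp only [Pi.smul_apply, smul_eq_mul] at this
      rw [hb, mul_assoc] at this
      simpa using mul_left_cancel₀ hp.ne_zero this
    · exact absurd hdX ht


lemma poly_isHomogeneous {d : ℕ} (v : Fin d → Fin 3 → ℂ) : (poly v).IsHomogeneous d := by
  unfold poly
  have := IsHomogeneous.prod Finset.univ (fun i => lin (v i)) (fun _ => 1)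
    (fun i _ => lin_isHomogeneous _)
  simpa using this

lemma poly_ne_zero {d : ℕ} {v : Fin d → Fin 3 → ℂ} (hv : IsArrangement v) : poly v ≠ 0 :=
  Finset.prod_ne_zero_iff.mpr fun i _ => lin_ne_zero (hv.1 i)

lemma der_smul (a : S) (θ : Fin 3 → S) (f : S) : der (a • θ) f = a * der θ f := by
  simp only [der_apply, Pi.smul_apply, smul_eq_mul, Finset.mul_sum, mul_assoc]

lemma der_sub (θ η : Fin 3 → S) (f : S) : der (θ - η) f = der θ f - der η f := by
  simp only [der_apply, Pi.sub_apply, sub_mul, Finset.sum_sub_distrib]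

lemma der_X {d : ℕ} (v : Fin d → Fin 3 → ℂ) : der X (poly v) = (d : S) * poly v := by
  rw [der_apply, (poly_isHomogeneous v).sum_X_mul_pderiv, nsmul_eq_mul]

lemma der_poly_eq {d : ℕ} (v : Fin d → Fin 3 → ℂ) (θ : Fin 3 → S) (q : Fin d → S)
    (h : ∀ i, pair (v i) θ = q i * lin (v i)) : der θ (poly v) = (∑ i, q i) * poly v :=
  der_prod_of_eq _ _ _ _ fun i _ => by rw [der_lin, h]

lemma P_of_syz {d : ℕ} {v : Fin (d + 1) → Fin 3 → ℂ} (hv : IsArrangement v) {r : ℕ}
    {θ : Fin 3 → S} (hθ : θ ∈ AR (poly v)) (h0 : θ ≠ 0) (hh : ∀ t, (θ t).totalDegree ≤ r) :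
    P v r := by
  refine ⟨θ, hh, ?_, ?_⟩
  · intro i
    rw [← der_lin]
    refine dvd_der_of_dvd_der_prod (der θ) Finset.univ (fun j => lin (v j))
      (fun j _ => lin_prime (hv.1 j)) (fun i _ j _ hij => hv.not_dvd hij) ?_ i
      (Finset.mem_univ _)
    have := mem_AR.mp hθ
    unfold poly at this
    rw [this]
    exact dvd_zero _
  · rintro ⟨a, ha⟩
    have h1 := mem_AR.mp hθ
    rw [ha, der_smul, der_X] at h1
    have h2 : ((d + 1 : ℕ) : S) ≠ 0 := by exact_mod_cast Nat.succ_ne_zero d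
    rcases mul_eq_zero.mp h1 with h3 | h3
    · exact h0 (by rw [ha, h3, zero_smul])
    · rcases mul_eq_zero.mp h3 with h4 | h4
      · exact h2 h4
      · exact poly_ne_zero hv h4

lemma homogeneousComponent_mul_right {m n : ℕ} {p q : S} (hq : q.IsHomogeneous m) :
    homogeneousComponent (n + m) (p * q) = homogeneousComponent n p * q := by
  conv_lhs => rw [← sum_homogeneousComponent p, Finset.sum_mul, map_sum]
  have h1 : ∀ i, homogeneousComponent (n + m) (homogeneousComponent i p * q) =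
      if i = n then homogeneousComponent n p * q else 0 := by
    intro i
    rw [homogeneousComponent_of_mem (m := n + m)
      (((homogeneousComponent_isHomogeneous i p).mul hq) :
        homogeneousComponent i p * q ∈ homogeneousSubmodule _ _ (i + m))]
    by_cases hi : i = n
    · subst hi; simp
    · rw [if_neg (by omega), if_neg hi]
  simp only [h1]
  rw [Finset.sum_ite_eq']
  split_ifs with hn
  · rfl
  · rw [Finset.mem_range, not_lt] at hn
    rw [homogeneousComponent_eq_zero _ _ (by omega), zero_mul]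

lemma sum_mul_homogeneousComponent {m n : ℕ} {θ g : Fin 3 → S} (hg : ∀ t, (g t).IsHomogeneous m)
    (h : ∑ t, θ t * g t = 0) : ∑ t, homogeneousComponent n (θ t) * g t = 0 := by
  have := congrArg (homogeneousComponent (n + m)) h
  rw [map_sum, map_zero] at this
  rw [← this]
  exact Finset.sum_congr rfl fun t _ => (homogeneousComponent_mul_right (hg t)).symm

lemma syz_of_P {d : ℕ} {v : Fin (d + 1) → Fin 3 → ℂ} (hv : IsArrangement v) {r : ℕ}
    (h : P v r) : ∃ s ≤ r, ∃ θ ∈ AR (poly v), θ ≠ 0 ∧ ∀ t, (θ t).IsHomogeneous s := by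
  obtain ⟨θ, h1, h2, h3⟩ := h
  choose q hq using h2
  have hq' : ∀ i, pair (v i) θ = q i * lin (v i) := fun i => by rw [hq, mul_comm]
  -- degree bound for the quotients
  have hpair : ∀ i, (pair (v i) θ).totalDegree ≤ r := by
    intro i
    unfold pair
    refine (totalDegree_finsetSum_le fun t _ => ?_)
    exact (totalDegree_mul _ _).trans (by rw [totalDegree_C, zero_add]; exact h1 t)
  have hqX : ∀ i t, (q i * X t).totalDegree ≤ r := by
    intro i t
    by_cases h0 : q i = 0
    · rw [h0, zero_mul, totalDegree_zero]; exact Nat.zero_le _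
    have := hpair i
    rw [hq' i, totalDegree_mul_of_isDomain h0 (lin_ne_zero (hv.1 i)),
      lin_totalDegree (hv.1 i)] at this
    rw [totalDegree_mul_of_isDomain h0 (X_ne_zero t), totalDegree_X]
    exact this
  set η : Fin 3 → S := (C ((d : ℂ) + 1) : S) • θ - (∑ i, q i) • X with hη
  have hη0 : η ≠ 0 := by
    intro h0
    apply h3
    refine ⟨C (((d : ℂ) + 1)⁻¹) * ∑ i, q i, ?_⟩
    have hd : ((d : ℂ) + 1) ≠ 0 := by exact_mod_cast Nat.succ_ne_zero d
    have h4 : (C ((d : ℂ) + 1) : S) • θ = (∑ i, q i) • (X : Fin 3 → S) := sub_eq_zero.mp h0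
    rw [mul_smul, ← h4, ← mul_smul, ← C_mul, inv_mul_cancel₀ hd, C_1, one_smul]
  have hηf : der η (poly v) = 0 := by
    rw [hη, der_sub, der_smul, der_smul, der_X, der_poly_eq v θ q hq']
    have : (C ((d : ℂ) + 1) : S) = ((d + 1 : ℕ) : S) := by
      push_cast
      rw [C_add, C_1]
      congr 1
    rw [this]
    ring
  have hηd : ∀ t, (η t).totalDegree ≤ r := by
    intro t
    rw [hη]
    simp only [Pi.sub_apply, Pi.smul_apply, smul_eq_mul]
    refine (totalDegree_sub _ _).trans (max_le ?_ ?_)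
    · exact (totalDegree_mul _ _).trans (by rw [totalDegree_C, zero_add]; exact h1 t)
    · rw [Finset.sum_mul]
      exact totalDegree_finsetSum_le fun i _ => hqX i t
  have : ∃ s, ∃ t, homogeneousComponent s (η t) ≠ 0 := by
    by_contra hcon
    push Not at hcon
    apply hη0
    funext t
    rw [← sum_homogeneousComponent (η t)]
    exact Finset.sum_eq_zero fun s _ => hcon s t
  obtain ⟨s, t, hst⟩ := this
  refine ⟨s, ?_, fun t => homogeneousComponent s (η t), ?_, ?_, ?_⟩
  · by_contra hs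
    push Not at hs
    exact hst (homogeneousComponent_eq_zero _ _ (lt_of_le_of_lt (hηd t) hs))
  · rw [der_apply] at hηf
    exact sum_mul_homogeneousComponent (m := d) (n := s)
      (fun t => by simpa using (poly_isHomogeneous v).pderiv (i := t)) hηf
  · intro h0
    exact hst (congrFun h0 t)
  · intro t
    exact homogeneousComponent_isHomogeneous s _


lemma P_zero_of_const {d : ℕ} {v : Fin d → Fin 3 → ℂ} (w : Fin 3 → ℂ) (hw : w ≠ 0)
    (h : ∀ i, ∑ t, v i t * w t = 0) : P v 0 := by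
  refine ⟨fun t => C (w t), fun t => by simp, fun i => ?_, ?_⟩
  · have : pair (v i) (fun t => C (w t)) = C (∑ t, v i t * w t) := by
      simp [pair, map_sum]
    rw [this, h i, C_0]
    exact dvd_zero _
  · rintro ⟨a, ha⟩
    apply hw
    funext t
    have := congrArg constantCoeff (congrFun ha t)
    simpa using this

lemma P_zero_one {v : Fin 1 → Fin 3 → ℂ} : P v 0 := by
  by_cases h : v 0 0 = 0 ∧ v 0 1 = 0
  · refine P_zero_of_const ![1, 0, 0] (fun h0 => by simpa using congrFun h0 0) fun i => ?_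
    rw [Subsingleton.elim i 0]
    simp [Fin.sum_univ_three, h.1]
  · refine P_zero_of_const ![v 0 1, - v 0 0, 0] (fun h0 => h ?_) fun i => ?_
    · have h1 := congrFun h0 0
      have h2 := congrFun h0 1
      simp at h1 h2
      exact ⟨h2, h1⟩
    · rw [Subsingleton.elim i 0]
      simp [Fin.sum_univ_three]
      ring

lemma exists_P {d : ℕ} {v : Fin (d + 1) → Fin 3 → ℂ} (hv : IsArrangement v) : P v d := by
  induction d with
  | zero => exact P_zero_one
  | succ d ih => exact P_succ_of_P_castSucc hv (ih hv.castSucc)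

lemma mdr_le_iff {d : ℕ} {v : Fin (d + 1) → Fin 3 → ℂ} (hv : IsArrangement v) {r : ℕ} :
    mdr (poly v) ≤ r ↔ P v r := by
  constructor
  · intro h
    have hne : {r | ∃ θ ∈ AR (poly v), θ ≠ 0 ∧ ∀ t, (θ t).IsHomogeneous r}.Nonempty := by
      obtain ⟨s, -, hs⟩ := syz_of_P hv (exists_P hv)
      exact ⟨s, hs⟩
    obtain ⟨θ, h1, h2, h3⟩ := Nat.sInf_mem hne
    exact P_mono (P_of_syz hv h1 h2 fun t => (h3 t).totalDegree_le) h
  · intro h
    obtain ⟨s, hs, hs'⟩ := syz_of_P hv h
    exact (Nat.sInf_le hs').trans hs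

lemma P_mdr {d : ℕ} {v : Fin (d + 1) → Fin 3 → ℂ} (hv : IsArrangement v) :
    P v (mdr (poly v)) := (mdr_le_iff hv).mp le_rfl

lemma mdr_castSucc_le {d : ℕ} {v : Fin (d + 2) → Fin 3 → ℂ} (hv : IsArrangement v) :
    mdr (poly fun i : Fin (d + 1) => v i.castSucc) ≤ mdr (poly v) :=
  (mdr_le_iff hv.castSucc).mpr (P_castSucc (P_mdr hv))

lemma mdr_le_castSucc_succ {d : ℕ} {v : Fin (d + 2) → Fin 3 → ℂ} (hv : IsArrangement v) :
    mdr (poly v) ≤ mdr (poly fun i : Fin (d + 1) => v i.castSucc) + 1 :=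
  (mdr_le_iff hv).mpr (P_succ_of_P_castSucc hv (P_mdr hv.castSucc))

/-! ### Restriction to a line -/

/-- The retraction of the polynomial ring onto the functions on the line `a = 0`, using the
coordinate `k` with `a k ≠ 0`. -/
noncomputable def rho (a : Fin 3 → ℂ) (k : Fin 3) : S →ₐ[ℂ] S :=
  aeval fun t => X t - C ((if t = k then 1 else 0) / a k) * lin a

lemma rho_X (a : Fin 3 → ℂ) (k t : Fin 3) :
    rho a k (X t) = X t - C ((if t = k then 1 else 0) / a k) * lin a := by
  simp [rho]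

lemma rho_X_of_ne (a : Fin 3 → ℂ) {k t : Fin 3} (h : t ≠ k) : rho a k (X t) = X t := by
  simp [rho_X, h]

lemma rho_C (a : Fin 3 → ℂ) (k : Fin 3) (c : ℂ) : rho a k (C c) = C c := by
  exact (rho a k).commutes c

lemma rho_lin (a : Fin 3 → ℂ) (k : Fin 3) (w : Fin 3 → ℂ) :
    rho a k (lin w) = lin (w - (w k / a k) • a) := by
  rw [lin_sub, lin_smul]
  conv_lhs => unfold lin
  rw [map_sum]
  simp only [map_mul, rho_C, rho_X, mul_sub, Finset.sum_sub_distrib]
  congr 1
  rw [Finset.sum_eq_single k]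
  · rw [← mul_assoc, ← C_mul]
    simp [div_eq_mul_inv]
  · intro b _ hb
    simp [hb]
  · simp

lemma rho_lin_self {a : Fin 3 → ℂ} {k : Fin 3} (h : a k ≠ 0) : rho a k (lin a) = 0 := by
  rw [rho_lin, div_self h, one_smul, sub_self, lin_zero]

lemma lin_dvd_rho_sub (a : Fin 3 → ℂ) (k : Fin 3) (p : S) : lin a ∣ p - rho a k p := by
  induction p using MvPolynomial.induction_on with
  | C c => rw [rho_C, sub_self]; exact dvd_zero _
  | add p q hp hq =>
    rw [map_add, add_sub_add_comm]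
    exact dvd_add hp hq
  | mul_X p t hp =>
    have : p * X t - rho a k (p * X t) =
        (p - rho a k p) * X t + rho a k p * (X t - rho a k (X t)) := by
      rw [map_mul]; ring
    rw [this]
    refine dvd_add (hp.mul_right _) (Dvd.dvd.mul_left ?_ _)
    rw [rho_X]
    simp

lemma rho_eq_zero_iff {a : Fin 3 → ℂ} {k : Fin 3} (h : a k ≠ 0) (p : S) :
    rho a k p = 0 ↔ lin a ∣ p := by
  constructor
  · intro hp
    have := lin_dvd_rho_sub a k p
    rwa [hp, sub_zero] at this
  · rintro ⟨q, rfl⟩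
    rw [map_mul, rho_lin_self h, zero_mul]

lemma rho_rho {a : Fin 3 → ℂ} {k : Fin 3} (h : a k ≠ 0) (p : S) :
    rho a k (rho a k p) = rho a k p := by
  have h1 := (rho_eq_zero_iff h _).mpr (lin_dvd_rho_sub a k p)
  rw [map_sub, sub_eq_zero] at h1
  exact h1.symm

lemma rho_totalDegree_le (a : Fin 3 → ℂ) (k : Fin 3) (p : S) :
    (rho a k p).totalDegree ≤ p.totalDegree := by
  conv_lhs => rw [← sum_homogeneousComponent p, map_sum]
  refine totalDegree_finsetSum_le fun i hi => ?_
  have h1 : (rho a k (homogeneousComponent i p)).IsHomogeneous (1 * i) := by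
    unfold rho
    refine (homogeneousComponent_isHomogeneous i p).aeval _ fun t => ?_
    refine (isHomogeneous_X _ t).sub ?_
    simpa using (lin_isHomogeneous a).C_mul ((if t = k then 1 else 0) / a k)
  refine h1.totalDegree_le.trans ?_
  rw [one_mul]
  exact Nat.lt_succ_iff.mp (Finset.mem_range.mp hi)

lemma sum_fin3 {M : Type*} [AddCommMonoid M] (k : Fin 3) (F : Fin 3 → M) :
    ∑ t, F t = F k + F (k + 1) + F (k + 2) := by
  fin_cases k
  · simp [Fin.sum_univ_three]
  · simp only [Fin.sum_univ_three]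
    show F 0 + F 1 + F 2 = F 1 + F 2 + F 0
    abel
  · simp only [Fin.sum_univ_three]
    show F 0 + F 1 + F 2 = F 2 + F 0 + F 1
    abel

lemma fin3_ne (k : Fin 3) : k + 1 ≠ k ∧ k + 2 ≠ k ∧ k + 1 ≠ k + 2 := by
  fin_cases k <;> decide

lemma lin_dvd_rho_minor {a : Fin 3 → ℂ} {k : Fin 3} (hk : a k ≠ 0) {θ : Fin 3 → S}
    (ha : lin a ∣ pair a θ) {w : Fin 3 → ℂ} (hw : lin w ∣ pair w θ)
    (hne : ∀ c : ℂ, w ≠ c • a) :
    rho a k (lin w) ∣ rho a k (θ (k + 1)) * X (k + 2) - rho a k (θ (k + 2)) * X (k + 1) := by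
  set u : Fin 3 → ℂ := w - (w k / a k) • a with hu
  have huk : u k = 0 := by
    rw [hu]
    simp only [Pi.sub_apply, Pi.smul_apply, smul_eq_mul]
    field_simp
    ring
  have hlu : lin u = C (u (k + 1)) * X (k + 1) + C (u (k + 2)) * X (k + 2) := by
    unfold lin
    rw [sum_fin3 k, huk]
    simp
  have h1 : rho a k (lin w) = lin u := rho_lin a k w
  have h2 : rho a k (pair w θ) =
      C (u (k + 1)) * rho a k (θ (k + 1)) + C (u (k + 2)) * rho a k (θ (k + 2)) := by
    have h3 : rho a k (pair a θ) = 0 := (rho_eq_zero_iff hk _).mpr ha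
    have h4 : rho a k (pair w θ) = rho a k (pair u θ) := by
      have : pair w θ = pair u θ + C (w k / a k) * pair a θ := by
        unfold pair
        rw [Finset.mul_sum, ← Finset.sum_add_distrib]
        refine Finset.sum_congr rfl fun t _ => ?_
        rw [hu, ← mul_assoc, ← C_mul, ← add_mul, ← C_add]
        simp
      rw [this, map_add, map_mul, h3, mul_zero, add_zero]
    rw [h4]
    unfold pair
    rw [sum_fin3 k, huk]
    simp
  have h5 : lin u ∣ C (u (k + 1)) * rho a k (θ (k + 1)) + C (u (k + 2)) * rho a k (θ (k + 2)) := by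
    rw [← h2, ← h1]
    exact map_dvd (rho a k) hw
  rw [h1]
  have hunit : ∀ c : ℂ, c ≠ 0 → ∀ p : S, lin u ∣ C c * p → lin u ∣ p := by
    intro c hc p hp
    have : p = C (c⁻¹) * (C c * p) := by
      rw [← mul_assoc, ← C_mul, inv_mul_cancel₀ hc, C_1, one_mul]
    rw [this]
    exact Dvd.dvd.mul_left hp _
  by_cases h6 : u (k + 1) = 0
  · by_cases h7 : u (k + 2) = 0
    · exfalso
      apply hne (w k / a k)
      have : u = 0 := by
        funext t
        have : t = k ∨ t = k + 1 ∨ t = k + 2 := by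
          fin_cases k <;> fin_cases t <;> decide
        rcases this with rfl | rfl | rfl <;> assumption
      rw [← sub_eq_zero]
      exact this
    · apply hunit _ h7
      have : C (u (k + 2)) * (rho a k (θ (k + 1)) * X (k + 2) - rho a k (θ (k + 2)) * X (k + 1)) =
          rho a k (θ (k + 1)) * lin u -
          (C (u (k + 1)) * rho a k (θ (k + 1)) + C (u (k + 2)) * rho a k (θ (k + 2))) * X (k + 1) := by
        rw [hlu]; ring
      rw [this]
      exact dvd_sub (Dvd.intro_left _ rfl) (h5.mul_right _)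
  · apply hunit _ h6
    have : C (u (k + 1)) * (rho a k (θ (k + 1)) * X (k + 2) - rho a k (θ (k + 2)) * X (k + 1)) =
        (C (u (k + 1)) * rho a k (θ (k + 1)) + C (u (k + 2)) * rho a k (θ (k + 2))) * X (k + 2) -
        rho a k (θ (k + 2)) * lin u := by
      rw [hlu]; ring
    rw [this]
    exact dvd_sub (h5.mul_right _) (Dvd.intro_left _ rfl)


/-- The minor attached to a derivation, restricted to the line. -/
noncomputable def minor (a : Fin 3 → ℂ) (k : Fin 3) (θ : Fin 3 → S) : S :=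
  rho a k (θ (k + 1)) * X (k + 2) - rho a k (θ (k + 2)) * X (k + 1)

lemma minor_totalDegree_le {a : Fin 3 → ℂ} {k : Fin 3} {θ : Fin 3 → S} {r : ℕ}
    (h : ∀ t, (θ t).totalDegree ≤ r) : (minor a k θ).totalDegree ≤ r + 1 := by
  unfold minor
  refine (totalDegree_sub _ _).trans (max_le ?_ ?_)
  · refine (totalDegree_mul _ _).trans ?_
    rw [totalDegree_X]
    exact Nat.add_le_add_right ((rho_totalDegree_le _ _ _).trans (h _)) 1
  · refine (totalDegree_mul _ _).trans ?_
    rw [totalDegree_X]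
    exact Nat.add_le_add_right ((rho_totalDegree_le _ _ _).trans (h _)) 1

lemma X_prime (t : Fin 3) : Prime (X t : S) := by
  rw [X_eq_lin]
  exact lin_prime fun h => by simpa using congrFun h t

lemma X_not_dvd_X {s t : Fin 3} (h : s ≠ t) : ¬ (X s : S) ∣ X t := by
  intro hd
  rw [X_eq_lin, X_eq_lin] at hd
  obtain ⟨c, hc⟩ := lin_dvd_lin hd
  have := congrFun hc t
  simp [h.symm] at this

/-- If the minor vanishes then the derivation is, on the line, a multiple of the Euler
derivation. -/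
lemma exists_of_minor_eq_zero {a : Fin 3 → ℂ} {k : Fin 3} (hk : a k ≠ 0) {θ : Fin 3 → S}
    (ha : lin a ∣ pair a θ) (h0 : minor a k θ = 0) :
    ∃ b : S, (X (k + 1) * b).totalDegree ≤ (θ (k + 1)).totalDegree ∧
      ∀ t, lin a ∣ θ t - b * X t := by
  obtain ⟨h1, h2, h3⟩ := fin3_ne k
  have h4 : rho a k (θ (k + 1)) * X (k + 2) = rho a k (θ (k + 2)) * X (k + 1) :=
    sub_eq_zero.mp h0
  have h5 : (X (k + 1) : S) ∣ rho a k (θ (k + 1)) * X (k + 2) := by
    rw [h4]; exact Dvd.intro_left _ rfl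
  rcases (X_prime (k + 1)).dvd_or_dvd h5 with h6 | h6
  swap
  · exact absurd h6 (X_not_dvd_X h3)
  obtain ⟨b, hb⟩ := h6
  have hb2 : rho a k (θ (k + 2)) = X (k + 2) * b := by
    rw [hb] at h4
    have : (X (k + 1) : S) * (X (k + 2) * b) = X (k + 1) * rho a k (θ (k + 2)) := by
      rw [mul_comm (X (k + 1)) (rho a k (θ (k + 2))), ← h4]; ring
    exact (mul_left_cancel₀ (X_ne_zero _) this).symm
  have e1 : lin a ∣ θ (k + 1) - b * X (k + 1) := by
    have := lin_dvd_rho_sub a k (θ (k + 1))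
    rwa [hb, mul_comm (X (k + 1)) b] at this
  have e2 : lin a ∣ θ (k + 2) - b * X (k + 2) := by
    have := lin_dvd_rho_sub a k (θ (k + 2))
    rwa [hb2, mul_comm (X (k + 2)) b] at this
  have e0 : lin a ∣ θ k - b * X k := by
    have hsum : C (a k) * (θ k - b * X k) = pair a θ - b * lin a
        - C (a (k + 1)) * (θ (k + 1) - b * X (k + 1))
        - C (a (k + 2)) * (θ (k + 2) - b * X (k + 2)) := by
      unfold pair lin
      rw [sum_fin3 k, sum_fin3 k]
      ring
    have h7 : lin a ∣ C (a k) * (θ k - b * X k) := by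
      rw [hsum]
      exact dvd_sub (dvd_sub (dvd_sub ha (Dvd.intro_left _ rfl)) (e1.mul_left _)) (e2.mul_left _)
    have h8 : θ k - b * X k = C ((a k)⁻¹) * (C (a k) * (θ k - b * X k)) := by
      rw [← mul_assoc, ← C_mul, inv_mul_cancel₀ hk, C_1, one_mul]
    rw [h8]
    exact h7.mul_left _
  refine ⟨b, ?_, fun t => ?_⟩
  · rw [← hb]; exact rho_totalDegree_le _ _ _
  have : t = k ∨ t = k + 1 ∨ t = k + 2 := by
    fin_cases k <;> fin_cases t <;> decide
  rcases this with rfl | rfl | rfl <;> assumption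

lemma not_dvd_restrict {a b c : Fin 3 → ℂ} {k : Fin 3} (hk : a k ≠ 0)
    (hb : ∀ e : ℂ, b ≠ e • a)
    (h : ∀ p : Fin 3 → ℂ, p ≠ 0 →
      ¬ (∑ t, a t * p t = 0 ∧ ∑ t, b t * p t = 0 ∧ ∑ t, c t * p t = 0)) :
    ¬ lin (b - (b k / a k) • a) ∣ lin (c - (c k / a k) • a) := by
  intro hd
  have ha0 : a ≠ 0 := fun h0 => hk (by rw [h0]; rfl)
  obtain ⟨e, he⟩ := lin_dvd_lin hd
  refine h (crossProduct a b) ?_ ⟨?_, ?_, ?_⟩
  · rw [crossProduct_ne_zero_iff_linearIndependent]
    rw [LinearIndependent.pair_iff' ha0]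
    intro e he
    exact hb e he.symm
  · exact dot_self_cross a b
  · exact dot_cross_self a b
  · have e : c = (e • b) + ((c k / a k) - e * (b k / a k)) • a := by
      funext t
      have := congrFun he t
      simp only [Pi.sub_apply, Pi.smul_apply, smul_eq_mul, Pi.add_apply] at this ⊢
      linear_combination this
    have g1 := dot_self_cross a b
    have g2 := dot_cross_self a b
    have : c ⬝ᵥ (crossProduct a b) = 0 := by
      rw [e, add_dotProduct, smul_dotProduct, smul_dotProduct, g1, g2]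
      simp
    exact this

/-- Restriction argument: a logarithmic derivation of small degree comes from the deleted
arrangement. -/
lemma P_pred_of_P {d : ℕ} {v : Fin (d + 1) → Fin 3 → ℂ} (hv : IsArrangement v) {r : ℕ}
    (h : P v r) (T : Finset (Fin d))
    (hT : ∀ m ∈ T, ∀ n ∈ T, m ≠ n → ∀ p : Fin 3 → ℂ, p ≠ 0 →
      ¬ (∑ t, v (Fin.last d) t * p t = 0 ∧ ∑ t, v m.castSucc t * p t = 0 ∧
        ∑ t, v n.castSucc t * p t = 0))
    (hr : r + 1 < T.card) : ∃ s, s + 1 = r ∧ P (fun i : Fin d => v i.castSucc) s := by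
  obtain ⟨θ, h1, h2, h3⟩ := h
  set a := v (Fin.last d) with ha
  have ha0 : a ≠ 0 := hv.1 _
  obtain ⟨k, hk⟩ := Function.ne_iff.mp ha0
  simp only [Pi.zero_apply] at hk
  -- restricted forms
  set w : Fin d → Fin 3 → ℂ := fun m => v m.castSucc - (v m.castSucc k / a k) • a with hw
  have hne : ∀ m : Fin d, ∀ c : ℂ, v m.castSucc ≠ c • a := fun m c =>
    hv.2 _ _ (Fin.castSucc_lt_last m).ne c
  have hw0 : ∀ m, w m ≠ 0 := fun m h0 => hne m _ (sub_eq_zero.mp h0)
  have hdvd : ∀ m, lin (w m) ∣ minor a k θ := by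
    intro m
    have := lin_dvd_rho_minor hk (h2 (Fin.last d)) (h2 m.castSucc) (hne m)
    rwa [rho_lin] at this
  have hndvd : ∀ m ∈ T, ∀ n ∈ T, m ≠ n → ¬ lin (w m) ∣ lin (w n) := fun m hm n hn hmn =>
    not_dvd_restrict hk (hne m) (hT m hm n hn hmn)
  have hprod : ∏ m ∈ T, lin (w m) ∣ minor a k θ := by
    apply Finset.prod_dvd_of_isRelPrime
    · intro m hm n hn hmn
      exact (lin_irreducible (hw0 m)).isRelPrime_iff_not_dvd.mpr (hndvd m hm n hn hmn)
    · exact fun m _ => hdvd m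
  have hzero : minor a k θ = 0 := by
    by_contra hcon
    have hdeg := totalDegree_le_of_dvd_of_isDomain hprod hcon
    have hh : (∏ m ∈ T, lin (w m)).IsHomogeneous T.card := by
      have := IsHomogeneous.prod T (fun m => lin (w m)) (fun _ => 1)
        (fun i _ => lin_isHomogeneous _)
      simpa using this
    rw [hh.totalDegree (Finset.prod_ne_zero_iff.mpr fun m _ => lin_ne_zero (hw0 m))] at hdeg
    have := minor_totalDegree_le (a := a) (k := k) h1
    omega
  obtain ⟨b, hbd, hb⟩ := exists_of_minor_eq_zero hk (h2 (Fin.last d)) hzero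
  choose η hη using hb
  have hθ : θ = b • X + lin a • η := by
    funext t
    simp only [Pi.add_apply, Pi.smul_apply, smul_eq_mul]
    rw [← hη t]; ring
  have hbX : ∀ t, (b * X t).totalDegree ≤ r := by
    intro t
    by_cases hb0 : b = 0
    · rw [hb0, zero_mul, totalDegree_zero]; exact Nat.zero_le _
    · rw [totalDegree_mul_of_isDomain (X_ne_zero _) hb0, totalDegree_X] at hbd
      rw [totalDegree_mul_of_isDomain hb0 (X_ne_zero _), totalDegree_X]
      have := h1 (k + 1)
      omega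
  have hlaη : ∀ t, η t ≠ 0 → (η t).totalDegree + 1 ≤ r := by
    intro t ht
    have h5 : (lin a * η t).totalDegree ≤ r := by
      rw [← hη t]
      exact (totalDegree_sub _ _).trans (max_le (h1 t) (hbX t))
    rw [totalDegree_mul_of_isDomain (lin_ne_zero ha0) ht, lin_totalDegree ha0] at h5
    omega
  have hηX : ¬ ∃ e : S, η = e • X := by
    rintro ⟨e, he⟩
    apply h3
    refine ⟨b + lin a * e, ?_⟩
    rw [hθ, he, add_smul, mul_smul]
  have hr1 : 1 ≤ r := by
    by_contra hcon
    apply hηX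
    refine ⟨0, ?_⟩
    funext t
    by_contra ht
    have : η t ≠ 0 := by simpa using ht
    have := hlaη t this
    omega
  refine ⟨r - 1, by omega, η, ?_, ?_, hηX⟩
  · intro t
    by_cases ht : η t = 0
    · rw [ht, totalDegree_zero]; exact Nat.zero_le _
    · have := hlaη t ht
      omega
  · intro m
    have h6 := h2 m.castSucc
    rw [hθ, pair_add, pair_smul, pair_smul, pair_X] at h6
    have h7 : lin (v m.castSucc) ∣ lin a * pair (v m.castSucc) η :=
      (dvd_add_right (Dvd.intro_left _ rfl)).mp h6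
    rcases (lin_prime (hv.1 _)).dvd_or_dvd h7 with h8 | h8
    · exact absurd h8 (hv.not_dvd (Fin.castSucc_lt_last m).ne)
    · exact h8

end Pool.Agent.Helper26.LineArr
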