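import Mathlib

/-!
Basic definitions for line arrangements in the complex projective plane:
defining polynomial, multiplicities of points, global Tjurina number,
module of Jacobian syzygies, minimal degree of a Jacobian relation, freeness.
-/

open MvPolynomial

namespace Pool.Agent.Helper26.LineArr

/-- The polynomial ring `ℂ[x,y,z]`. -/
abbrev S : Type := MvPolynomial (Fin 3) ℂ

/-- The linear form `a 0 * x + a 1 * y + a 2 * z`. -/
noncomputable def lin (a : Fin 3 → ℂ) : S := ∑ t, C (a t) * X t

/-- `v` lists the coefficient vectors of `d` distinct lines of the complex projective plane: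
the vectors are nonzero and pairwise non-proportional. -/
def IsArrangement {d : ℕ} (v : Fin d → Fin 3 → ℂ) : Prop :=
  (∀ i, v i ≠ 0) ∧ ∀ i j, i ≠ j → ∀ c : ℂ, v i ≠ c • v j

/-- The defining polynomial of the arrangement, the product of the `d` linear forms. -/
noncomputable def poly {d : ℕ} (v : Fin d → Fin 3 → ℂ) : S := ∏ i, lin (v i)

/-- The number of lines of the arrangement through the point `p` of the projective plane. -/
noncomputable def mult {d : ℕ} (v : Fin d → Fin 3 → ℂ)
    (p : Projectivization ℂ (Fin 3 → ℂ)) : ℕ :=
  Nat.card {i : Fin d // ∑ t, v i t * p.rep t = 0}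

/-- The global Tjurina number of a line arrangement: the sum of `(m_p - 1) ^ 2` over the
points `p` lying on at least two of the lines. -/
noncomputable def tau {d : ℕ} (v : Fin d → Fin 3 → ℂ) : ℕ :=
  ∑ᶠ p ∈ {p : Projectivization ℂ (Fin 3 → ℂ) | 2 ≤ mult v p}, (mult v p - 1) ^ 2

/-- The module of Jacobian syzygies: triples `(a, b, c)` with `a f_x + b f_y + c f_z = 0`. -/
noncomputable def AR (f : S) : Submodule S (Fin 3 → S) where
  carrier := {θ | ∑ t, θ t * pderiv t f = 0}
  add_mem' := by
    intro a b ha hb
    simp only [Set.mem_ofPred_eq, Pi.add_apply, add_mul, Finset.sum_add_distrib] at *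
    rw [ha, hb, add_zero]
  zero_mem' := by simp
  smul_mem' := by
    intro c a ha
    simp only [Set.mem_ofPred_eq, Pi.smul_apply, smul_eq_mul, mul_assoc] at *
    rw [← Finset.mul_sum, ha, mul_zero]

/-- The least degree `r` of a nonzero homogeneous Jacobian syzygy of `f`. -/
noncomputable def mdr (f : S) : ℕ :=
  sInf {r | ∃ θ ∈ AR f, θ ≠ 0 ∧ ∀ t, (θ t).IsHomogeneous r}

/-- The curve `f = 0` is free if the module of Jacobian syzygies is a free module. -/
def IsFree (f : S) : Prop := Module.Free S (AR f)

end Pool.Agent.Helper26.LineArr
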